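import Mathlib

set_option autoImplicit false

/-!
The Wiener polynomial.
-/

namespace Pool.Agent.N343.WR

/-- the Wiener polynomial of a graph with the vertices `0, …, n-1` -/
noncomputable def wienerPolynomial {n : ℕ} (G : SimpleGraph (Fin n)) : Polynomial ℝ :=
  ∑ p : Fin n × Fin n with p.1 < p.2, Polynomial.X ^ G.dist p.1 p.2

/-- the real Wiener roots of trees -/
def realWienerRoots : Set ℝ :=
  {r | ∃ (n : ℕ) (T : SimpleGraph (Fin n)), 2 ≤ n ∧ T.IsTree ∧ (wienerPolynomial T).IsRoot r}

end Pool.Agent.N343.WR
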