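import Mathlib

set_option autoImplicit false

/-!
Adding a leaf to a tree.
-/

namespace Pool.Agent.N343.WR

open Finset

variable {n : ℕ}

/-- `G` with a new vertex joined to `u` only -/
def addLeaf (G : SimpleGraph (Fin n)) (u : Fin n) : SimpleGraph (Fin (n + 1)) where
  Adj a b := (∃ i j, a = Fin.castSucc i ∧ b = Fin.castSucc j ∧ G.Adj i j) ∨
    (a = Fin.last n ∧ b = u.castSucc) ∨ (a = u.castSucc ∧ b = Fin.last n)
  symm := ⟨by
    rintro a b (⟨i, j, h1, h2, h3⟩ | ⟨h1, h2⟩ | ⟨h1, h2⟩)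
    · exact Or.inl ⟨j, i, h2, h1, h3.symm⟩
    · exact Or.inr (Or.inr ⟨h2, h1⟩)
    · exact Or.inr (Or.inl ⟨h2, h1⟩)⟩
  loopless := ⟨by
    rintro a (⟨i, j, h1, h2, h3⟩ | ⟨h1, h2⟩ | ⟨h1, h2⟩)
    · rw [h1] at h2
      rw [Fin.castSucc_injective n h2] at h3
      exact h3.ne rfl
    · rw [h1] at h2; exact (Fin.castSucc_lt_last u).ne' h2
    · rw [h1] at h2; exact (Fin.castSucc_lt_last u).ne h2⟩

theorem adj_cc (G : SimpleGraph (Fin n)) (u i j : Fin n) :
    (addLeaf G u).Adj i.castSucc j.castSucc ↔ G.Adj i j := by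
  constructor
  · rintro (⟨i', j', h1, h2, h3⟩ | ⟨h1, h2⟩ | ⟨h1, h2⟩)
    · rw [Fin.castSucc_injective n h1, Fin.castSucc_injective n h2]; exact h3
    · exact absurd h1 (Fin.castSucc_lt_last i).ne
    · exact absurd h2 (Fin.castSucc_lt_last j).ne
  · intro h
    exact Or.inl ⟨i, j, rfl, rfl, h⟩

theorem adj_lc (G : SimpleGraph (Fin n)) (u j : Fin n) :
    (addLeaf G u).Adj (Fin.last n) j.castSucc ↔ j = u := by
  constructor
  · rintro (⟨i', j', h1, h2, h3⟩ | ⟨h1, h2⟩ | ⟨h1, h2⟩)
    · exact absurd h1 (Fin.castSucc_lt_last i').ne'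
    · exact Fin.castSucc_injective n h2
    · exact absurd h2 (Fin.castSucc_lt_last j).ne
  · rintro rfl
    exact Or.inr (Or.inl ⟨rfl, rfl⟩)

/-- the retraction -/
def ret (u : Fin n) : Fin (n + 1) → Fin n := Fin.lastCases u id

theorem ret_last (u : Fin n) : ret u (Fin.last n) = u := by simp [ret]

theorem ret_cast (u i : Fin n) : ret u i.castSucc = i := by simp [ret]

theorem ret_adj (G : SimpleGraph (Fin n)) (u : Fin n) {a b : Fin (n + 1)}
    (h : (addLeaf G u).Adj a b) : ret u a = ret u b ∨ G.Adj (ret u a) (ret u b) := by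
  rcases h with (⟨i', j', h1, h2, h3⟩ | ⟨h1, h2⟩ | ⟨h1, h2⟩)
  · right; rw [h1, h2, ret_cast, ret_cast]; exact h3
  · left; rw [h1, h2, ret_cast, ret_last]
  · left; rw [h1, h2, ret_cast, ret_last]

theorem ret_walk (G : SimpleGraph (Fin n)) (u : Fin n) {a b : Fin (n + 1)}
    (p : (addLeaf G u).Walk a b) : ∃ q : G.Walk (ret u a) (ret u b), q.length ≤ p.length := by
  induction p with
  | nil => exact ⟨SimpleGraph.Walk.nil, le_rfl⟩
  | cons h p ih =>
    obtain ⟨q, hq⟩ := ih
    rcases ret_adj G u h with h1 | h1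
    · rw [h1]
      exact ⟨q, by rw [SimpleGraph.Walk.length_cons]; omega⟩
    · exact ⟨SimpleGraph.Walk.cons h1 q, by
        rw [SimpleGraph.Walk.length_cons, SimpleGraph.Walk.length_cons]; omega⟩

theorem ret_dist (G : SimpleGraph (Fin n)) (u : Fin n) {a b : Fin (n + 1)}
    (p : (addLeaf G u).Walk a b) : G.dist (ret u a) (ret u b) ≤ p.length := by
  obtain ⟨q, hq⟩ := ret_walk G u p
  exact (SimpleGraph.dist_le q).trans hq

theorem map_walk (G : SimpleGraph (Fin n)) (u : Fin n) {a b : Fin n} (p : G.Walk a b) :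
    ∃ q : (addLeaf G u).Walk a.castSucc b.castSucc, q.length = p.length := by
  induction p with
  | nil => exact ⟨SimpleGraph.Walk.nil, rfl⟩
  | cons h p ih =>
    obtain ⟨q, hq⟩ := ih
    exact ⟨SimpleGraph.Walk.cons ((adj_cc G u _ _).2 h) q, by
      rw [SimpleGraph.Walk.length_cons, SimpleGraph.Walk.length_cons, hq]⟩

theorem connected_addLeaf {G : SimpleGraph (Fin n)} (hG : G.Connected) (u : Fin n) :
    (addLeaf G u).Connected := by
  have h1 : ∀ a : Fin (n + 1), (addLeaf G u).Reachable a u.castSucc := by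
    intro a
    induction a using Fin.lastCases with
    | last => exact ((adj_lc G u u).2 rfl).reachable
    | cast i =>
      obtain ⟨p⟩ := hG.preconnected i u
      obtain ⟨q, -⟩ := map_walk G u p
      exact ⟨q⟩
  have : Nonempty (Fin (n + 1)) := ⟨Fin.last n⟩
  exact ⟨fun a b => (h1 a).trans (h1 b).symm⟩

theorem dist_cc {G : SimpleGraph (Fin n)} (hG : G.Connected) (u i j : Fin n) :
    (addLeaf G u).dist i.castSucc j.castSucc = G.dist i j := by
  apply le_antisymm
  · obtain ⟨p, hp⟩ := hG.exists_walk_length_eq_dist i j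
    obtain ⟨q, hq⟩ := map_walk G u p
    rw [← hp, ← hq]
    exact SimpleGraph.dist_le q
  · obtain ⟨p, hp⟩ := (connected_addLeaf hG u).exists_walk_length_eq_dist i.castSucc j.castSucc
    rw [← hp]
    have := ret_dist G u p
    rwa [ret_cast, ret_cast] at this

theorem walk_lc {G : SimpleGraph (Fin n)} (hG : G.Connected) (u j : Fin n) {a b : Fin (n + 1)}
    (p : (addLeaf G u).Walk a b) (ha : a = Fin.last n) (hb : b = j.castSucc) :
    G.dist u j + 1 ≤ p.length := by
  cases p with
  | nil => rw [ha] at hb; exact absurd hb (Fin.castSucc_lt_last j).ne'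
  | cons h q =>
    rename_i v
    subst ha hb
    rw [SimpleGraph.Walk.length_cons]
    induction v using Fin.lastCases with
    | last => exact absurd rfl h.ne
    | cast i =>
      rw [adj_lc] at h
      subst h
      have := SimpleGraph.dist_le q
      rw [dist_cc hG] at this
      omega

theorem dist_lc {G : SimpleGraph (Fin n)} (hG : G.Connected) (u j : Fin n) :
    (addLeaf G u).dist (Fin.last n) j.castSucc = G.dist u j + 1 := by
  apply le_antisymm
  · obtain ⟨p, hp⟩ := hG.exists_walk_length_eq_dist u j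
    obtain ⟨q, hq⟩ := map_walk G u p
    have := SimpleGraph.dist_le (SimpleGraph.Walk.cons ((adj_lc G u u).2 rfl) q)
    rwa [SimpleGraph.Walk.length_cons, hq, hp] at this
  · obtain ⟨p, hp⟩ := (connected_addLeaf hG u).exists_walk_length_eq_dist (Fin.last n) j.castSucc
    rw [← hp]
    exact walk_lc hG u j p rfl rfl

theorem tree_addLeaf {G : SimpleGraph (Fin n)} (hG : G.IsTree) (u : Fin n) :
    (addLeaf G u).IsTree := by
  classical
  rw [SimpleGraph.isTree_iff_connected_and_card] at hG ⊢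
  refine ⟨connected_addLeaf hG.1 u, ?_⟩
  have h2 := hG.2
  rw [Nat.card_eq_fintype_card, Nat.card_eq_fintype_card, ← SimpleGraph.edgeFinset_card,
    Fintype.card_fin] at h2 ⊢
  have h3 : (addLeaf G u).edgeFinset =
      insert s(Fin.last n, u.castSucc) (G.edgeFinset.image (Sym2.map Fin.castSucc)) := by
    ext e
    induction e using Sym2.ind with
    | _ a b =>
      rw [SimpleGraph.mem_edgeFinset, SimpleGraph.mem_edgeSet, mem_insert, mem_image]
      constructor
      · rintro (⟨i, j, rfl, rfl, h⟩ | ⟨rfl, rfl⟩ | ⟨rfl, rfl⟩)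
        · right
          exact ⟨s(i, j), by simpa using h, by simp⟩
        · left; rfl
        · left; exact Sym2.eq_swap
      · rintro (h | ⟨e, h1, h2⟩)
        · rw [Sym2.eq_iff] at h
          rcases h with ⟨rfl, rfl⟩ | ⟨rfl, rfl⟩
          · exact Or.inr (Or.inl ⟨rfl, rfl⟩)
          · exact Or.inr (Or.inr ⟨rfl, rfl⟩)
        · induction e using Sym2.ind with
          | _ i j =>
            rw [SimpleGraph.mem_edgeFinset, SimpleGraph.mem_edgeSet] at h1
            rw [Sym2.map_mk, Sym2.eq_iff] at h2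
            rcases h2 with ⟨h2, h3⟩ | ⟨h2, h3⟩
            · exact Or.inl ⟨i, j, h2.symm, h3.symm, h1⟩
            · exact Or.inl ⟨j, i, h3.symm, h2.symm, h1.symm⟩
  rw [h3, card_insert_of_notMem, card_image_of_injective _
    (Sym2.map.injective (Fin.castSucc_injective n)), h2]
  rw [mem_image]
  rintro ⟨e, -, h⟩
  induction e using Sym2.ind with
  | _ i j =>
    rw [Sym2.map_mk, Sym2.eq_iff] at h
    rcases h with ⟨h, -⟩ | ⟨-, h⟩
    · exact (Fin.castSucc_lt_last i).ne h
    · exact (Fin.castSucc_lt_last j).ne h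

/-- the Wiener polynomial, as a function -/
noncomputable def W (G : SimpleGraph (Fin n)) (x : ℝ) : ℝ := ∑ i, ∑ j, if i < j then x ^ G.dist i j else 0

/-- the distance sum of a vertex -/
noncomputable def D (G : SimpleGraph (Fin n)) (u : Fin n) (x : ℝ) : ℝ := ∑ i, x ^ G.dist u i

theorem W_addLeaf {G : SimpleGraph (Fin n)} (hG : G.Connected) (u : Fin n) (x : ℝ) :
    W (addLeaf G u) x = W G x + x * D G u x := by
  unfold W D
  rw [Fin.sum_univ_castSucc]
  have h1 : ∑ j, (if Fin.last n < j then x ^ (addLeaf G u).dist (Fin.last n) j else 0) = 0 :=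
    sum_eq_zero fun j _ => if_neg (not_lt.2 (Fin.le_last j))
  rw [h1, add_zero, mul_sum, ← sum_add_distrib]
  refine sum_congr rfl fun i _ => ?_
  rw [Fin.sum_univ_castSucc, if_pos (Fin.castSucc_lt_last i), SimpleGraph.dist_comm, dist_lc hG,
    pow_succ']
  congr 1
  refine sum_congr rfl fun j _ => ?_
  rw [dist_cc hG]
  simp only [Fin.castSucc_lt_castSucc_iff]

theorem D_addLeaf_old {G : SimpleGraph (Fin n)} (hG : G.Connected) (u : Fin n) (x : ℝ) :
    D (addLeaf G u) u.castSucc x = D G u x + x := by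
  unfold D
  rw [Fin.sum_univ_castSucc, SimpleGraph.dist_comm, dist_lc hG, SimpleGraph.dist_self, zero_add,
    pow_one]
  congr 1
  exact sum_congr rfl fun j _ => by rw [dist_cc hG]

theorem D_addLeaf_new {G : SimpleGraph (Fin n)} (hG : G.Connected) (u : Fin n) (x : ℝ) :
    D (addLeaf G u) (Fin.last n) x = 1 + x * D G u x := by
  unfold D
  rw [Fin.sum_univ_castSucc, SimpleGraph.dist_self, pow_zero, mul_sum, add_comm]
  congr 1
  exact sum_congr rfl fun j _ => by rw [dist_lc hG, pow_succ']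

/-- there is a tree with `n` vertices, with Wiener polynomial `w` and a vertex with distance sum
`d` -/
def Reach (n : ℕ) (w d : ℝ → ℝ) : Prop :=
  ∃ G : SimpleGraph (Fin n), G.IsTree ∧ (∀ x, W G x = w x) ∧ ∃ u, ∀ x, D G u x = d x

theorem Reach.stay {w d : ℝ → ℝ} (h : Reach n w d) :
    Reach (n + 1) (fun x => w x + x * d x) (fun x => d x + x) := by
  obtain ⟨G, hG, hw, u, hd⟩ := h
  exact ⟨addLeaf G u, tree_addLeaf hG u, fun x => by rw [W_addLeaf hG.1, hw, hd], u.castSucc,
    fun x => by rw [D_addLeaf_old hG.1, hd]⟩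

theorem Reach.move {w d : ℝ → ℝ} (h : Reach n w d) :
    Reach (n + 1) (fun x => w x + x * d x) (fun x => 1 + x * d x) := by
  obtain ⟨G, hG, hw, u, hd⟩ := h
  exact ⟨addLeaf G u, tree_addLeaf hG u, fun x => by rw [W_addLeaf hG.1, hw, hd], Fin.last n,
    fun x => by rw [D_addLeaf_new hG.1, hd]⟩

theorem reach_one : Reach 1 (fun _ => 0) (fun _ => 1) := by
  refine ⟨⊥, ?_, ?_, 0, ?_⟩
  · rw [SimpleGraph.isTree_iff_connected_and_card]
    refine ⟨⟨fun a b => ?_⟩, ?_⟩
    · rw [Subsingleton.elim a b]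
    · simp
  · intro x
    unfold W
    simp
  · intro x
    unfold D
    simp

end Pool.Agent.N343.WR
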