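import Pool.Agent.N343.WR.Leaf
import Pool.Agent.N343.WR.Defs

set_option autoImplicit false

/-!
Brooms and double stars.
-/

namespace Pool.Agent.N343.WR

open Finset

variable {n : ℕ}

theorem Reach.congr {w d w' d' : ℝ → ℝ} (h : Reach n w d) (hw : ∀ x, w x = w' x)
    (hd : ∀ x, d x = d' x) : Reach n w' d' := by
  obtain ⟨G, hG, hw', u, hd'⟩ := h
  exact ⟨G, hG, fun x => by rw [hw', hw], u, fun x => by rw [hd', hd]⟩

theorem Reach.stays {w d : ℝ → ℝ} (h : Reach n w d) (b : ℕ) :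
    Reach (n + b) (fun x => w x + b * x * d x + (b : ℝ) * (b - 1) / 2 * x ^ 2)
      (fun x => d x + b * x) := by
  induction b with
  | zero => exact h.congr (fun x => by simp) (fun x => by simp)
  | succ b ih =>
    refine ih.stay.congr (fun x => ?_) (fun x => ?_)
    · push_cast; ring
    · push_cast; ring

/-- iteration of `d ↦ 1 + x d` -/
def ds (d : ℝ → ℝ) : ℕ → ℝ → ℝ
  | 0 => d
  | j + 1 => fun x => 1 + x * ds d j x

theorem Reach.moves {w d : ℝ → ℝ} (h : Reach n w d) (q : ℕ) :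
    Reach (n + q) (fun x => w x + x * ∑ j ∈ range q, ds d j x) (ds d q) := by
  induction q with
  | zero => exact h.congr (fun x => by simp) (fun x => rfl)
  | succ q ih =>
    refine ih.move.congr (fun x => ?_) (fun x => rfl)
    rw [sum_range_succ]; ring

theorem ds_eq (d : ℝ → ℝ) {x : ℝ} (hx : x ≠ 1) (j : ℕ) :
    ds d j x = 1 / (1 - x) + x ^ j * (d x - 1 / (1 - x)) := by
  have h1 : 1 - x ≠ 0 := sub_ne_zero.2 hx.symm
  induction j with
  | zero => simp [ds]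
  | succ j ih =>
    show 1 + x * ds d j x = _
    rw [ih]
    field_simp
    ring

theorem sum_ds (d : ℝ → ℝ) {x : ℝ} (hx : x ≠ 1) (q : ℕ) :
    ∑ j ∈ range q, ds d j x =
      q / (1 - x) + (d x - 1 / (1 - x)) * ((1 - x ^ q) / (1 - x)) := by
  have h1 : 1 - x ≠ 0 := sub_ne_zero.2 hx.symm
  induction q with
  | zero => simp
  | succ q ih =>
    rw [sum_range_succ, ih, ds_eq d hx]
    push_cast
    field_simp
    ring

/-- the double star -/
theorem doubleStar (a b : ℕ) : ∃ (n : ℕ) (G : SimpleGraph (Fin n)), 2 ≤ n ∧ G.IsTree ∧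
    ∀ x, W G x = (a + b + 1) * x + ((a : ℝ) * (a + 1) + b * (b + 1)) / 2 * x ^ 2 + a * b * x ^ 3 := by
  obtain ⟨G, hG, hw, -⟩ := ((reach_one.stays a).move.stays b)
  refine ⟨_, G, by omega, hG, fun x => ?_⟩
  rw [hw]
  ring

/-- the broom -/
theorem broom (L q : ℕ) (hq : 1 ≤ q) : ∃ (n : ℕ) (G : SimpleGraph (Fin n)), 2 ≤ n ∧ G.IsTree ∧
    ∀ x, x ≠ 1 → W G x = L * x + (L : ℝ) * (L - 1) / 2 * x ^ 2 + x * (q / (1 - x) +
      (1 + L * x - 1 / (1 - x)) * ((1 - x ^ q) / (1 - x))) := by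
  obtain ⟨G, hG, hw, -⟩ := ((reach_one.stays L).moves q)
  refine ⟨_, G, by omega, hG, fun x hx => ?_⟩
  rw [hw]
  beta_reduce
  rw [sum_ds _ hx]
  ring

theorem continuous_W (G : SimpleGraph (Fin n)) : Continuous (W G) := by
  unfold W
  refine continuous_finsetSum _ fun i _ => continuous_finsetSum _ fun j _ => ?_
  split_ifs
  · exact continuous_pow _
  · exact continuous_const

theorem eval_wiener (G : SimpleGraph (Fin n)) (x : ℝ) :
    (wienerPolynomial G).eval x = W G x := by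
  unfold wienerPolynomial W
  rw [Polynomial.eval_finsetSum, sum_filter, Fintype.sum_prod_type]
  simp

theorem root_of_sign {s t : ℝ} (hst : s < t) (n : ℕ) (G : SimpleGraph (Fin n)) (hn : 2 ≤ n)
    (hG : G.IsTree) (hs : 0 < W G s) (ht : W G t < 0) : ∃ r ∈ realWienerRoots, s < r ∧ r < t := by
  have h := intermediate_value_Ioo' hst.le (continuous_W G).continuousOn
  obtain ⟨r, hr, hr0⟩ := h ⟨ht, hs⟩
  exact ⟨r, ⟨n, G, hn, hG, by rw [Polynomial.IsRoot, eval_wiener, hr0]⟩, hr.1, hr.2⟩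

theorem root_of_sign' {s t : ℝ} (hst : s < t) (n : ℕ) (G : SimpleGraph (Fin n)) (hn : 2 ≤ n)
    (hG : G.IsTree) (hs : W G s < 0) (ht : 0 < W G t) : ∃ r ∈ realWienerRoots, s < r ∧ r < t := by
  have h := intermediate_value_Ioo hst.le (continuous_W G).continuousOn
  obtain ⟨r, hr, hr0⟩ := h ⟨hs, ht⟩
  exact ⟨r, ⟨n, G, hn, hG, by rw [Polynomial.IsRoot, eval_wiener, hr0]⟩, hr.1, hr.2⟩

/-- `m ^ 2 A + m B + C > 0` for large `m` -/
theorem quad_pos {A : ℝ} (hA : 0 < A) (B C : ℝ) :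
    ∀ m : ℕ, (|B| + |C|) / A + 1 < m → 0 < (m : ℝ) ^ 2 * A + m * B + C := by
  intro m hm
  have h0 : 0 ≤ (|B| + |C|) / A := by positivity
  have hm1 : (1 : ℝ) < m := by linarith
  have h1 : (|B| + |C|) < m * A := by
    have : (|B| + |C|) / A < m := by linarith
    rwa [div_lt_iff₀ hA] at this
  have h2 := neg_abs_le B
  have h3 := neg_abs_le C
  have h4 : |C| ≤ m * |C| := by nlinarith [abs_nonneg C]
  nlinarith

/-- roots less than `-1` -/
theorem left_roots {s t : ℝ} (hst : s < t) (ht : t < -1) :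
    ∃ r ∈ realWienerRoots, s < r ∧ r < t := by
  -- a rational number `r = p / q` with `-t < (r + 1 / r) / 2 < -s`
  have hα : 0 ≤ (-t) ^ 2 - 1 := by nlinarith
  have hβ : 0 ≤ (-s) ^ 2 - 1 := by nlinarith
  have h1 : -t + Real.sqrt ((-t) ^ 2 - 1) < -s + Real.sqrt ((-s) ^ 2 - 1) := by
    have : Real.sqrt ((-t) ^ 2 - 1) ≤ Real.sqrt ((-s) ^ 2 - 1) :=
      Real.sqrt_le_sqrt (by nlinarith)
    linarith
  obtain ⟨r, hr1, hr2⟩ := exists_rat_btwn h1
  set u := Real.sqrt ((-t) ^ 2 - 1) with hu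
  set v := Real.sqrt ((-s) ^ 2 - 1) with hv
  have hu2 : u ^ 2 = (-t) ^ 2 - 1 := Real.sq_sqrt hα
  have hv2 : v ^ 2 = (-s) ^ 2 - 1 := Real.sq_sqrt hβ
  have hu0 : 0 ≤ u := Real.sqrt_nonneg _
  have hv0 : 0 ≤ v := Real.sqrt_nonneg _
  have hr0 : (1 : ℝ) < r := by linarith
  have hrt : 0 < (r : ℝ) ^ 2 + 1 + 2 * r * t := by
    have h2 : u < (r : ℝ) + t := by linarith
    nlinarith
  have hrs : (r : ℝ) ^ 2 + 1 + 2 * r * s < 0 := by
    have h2 : (r : ℝ) + s < v := by linarith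
    have h3 : -v < (r : ℝ) + s := by
      have h4 : -s - v ≤ 1 := by
        by_contra h5
        push Not at h5
        nlinarith
      linarith
    nlinarith
  have hrpos : (0 : ℚ) < r := by
    have : (0 : ℝ) < r := by linarith
    exact_mod_cast this
  obtain ⟨p, hp⟩ : ∃ p : ℕ, p = r.num.toNat := ⟨_, rfl⟩
  obtain ⟨q, hq⟩ : ∃ q : ℕ, q = r.den := ⟨_, rfl⟩
  have hq0 : (0 : ℝ) < q := by rw [hq]; exact_mod_cast r.den_pos
  have hp' : (p : ℝ) = r * q := by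
    have h2 : ((r.num.toNat : ℤ) : ℚ) = r * r.den := by
      rw [Int.toNat_of_nonneg (Rat.num_nonneg.2 hrpos.le)]
      exact (Rat.mul_den_eq_num r).symm
    have h3 : (((r.num.toNat : ℤ) : ℚ) : ℝ) = ((r * r.den : ℚ) : ℝ) := by rw [h2]
    push_cast at h3
    rw [hp, hq]
    exact h3
  -- the leading coefficients
  have hAs : 0 < -(s ^ 2 * (((p : ℝ) ^ 2 + q ^ 2) / 2 + p * q * s)) := by
    rw [hp']
    have h2 : ((r : ℝ) * q) ^ 2 + q ^ 2 + 2 * (r * q * q * s) = q ^ 2 * (r ^ 2 + 1 + 2 * r * s) := by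
      ring
    have h3 : (0 : ℝ) < q ^ 2 := by positivity
    have h4 : (q : ℝ) ^ 2 * (r ^ 2 + 1 + 2 * r * s) < 0 := mul_neg_of_pos_of_neg h3 hrs
    have h5 : 0 < s ^ 2 := by nlinarith
    have h6 : ((r : ℝ) * q) ^ 2 + q ^ 2 + 2 * (r * q * q * s) < 0 := by rw [h2]; exact h4
    have h7 : (((r : ℝ) * q) ^ 2 + q ^ 2) / 2 + r * q * q * s < 0 := by linarith
    nlinarith [mul_pos h5 (neg_pos.2 h7)]
  have hAt : 0 < t ^ 2 * (((p : ℝ) ^ 2 + q ^ 2) / 2 + p * q * t) := by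
    rw [hp']
    have h2 : ((r : ℝ) * q) ^ 2 + q ^ 2 + 2 * (r * q * q * t) = q ^ 2 * (r ^ 2 + 1 + 2 * r * t) := by
      ring
    have h3 : (0 : ℝ) < q ^ 2 := by positivity
    have h4 : 0 < (q : ℝ) ^ 2 * (r ^ 2 + 1 + 2 * r * t) := mul_pos h3 hrt
    have h5 : 0 < t ^ 2 := by nlinarith
    have h6 : 0 < ((r : ℝ) * q) ^ 2 + q ^ 2 + 2 * (r * q * q * t) := by rw [h2]; exact h4
    have h7 : 0 < (((r : ℝ) * q) ^ 2 + q ^ 2) / 2 + r * q * q * t := by linarith
    exact mul_pos h5 h7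
  have hs' := quad_pos hAs (-(((p : ℝ) + q) * s + (p + q) / 2 * s ^ 2)) (-s)
  have ht' := quad_pos hAt (((p : ℝ) + q) * t + (p + q) / 2 * t ^ 2) t
  obtain ⟨m, hm⟩ := exists_nat_gt (max
    ((|-(((p : ℝ) + q) * s + (p + q) / 2 * s ^ 2)| + |-s|) /
      -(s ^ 2 * (((p : ℝ) ^ 2 + q ^ 2) / 2 + p * q * s)) + 1)
    ((|((p : ℝ) + q) * t + (p + q) / 2 * t ^ 2| + |t|) /
      (t ^ 2 * (((p : ℝ) ^ 2 + q ^ 2) / 2 + p * q * t)) + 1))
  have e1 := hs' m (lt_of_le_of_lt (le_max_left _ _) hm)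
  have e2 := ht' m (lt_of_le_of_lt (le_max_right _ _) hm)
  obtain ⟨n, G, hn, hG, hW⟩ := doubleStar (p * m) (q * m)
  refine root_of_sign' hst n G hn hG ?_ ?_
  · rw [hW]
    push_cast
    have : ((p : ℝ) * m + q * m + 1) * s + (p * m * (p * m + 1) + q * m * (q * m + 1)) / 2 * s ^ 2 +
        p * m * (q * m) * s ^ 3 = -((m : ℝ) ^ 2 * -(s ^ 2 * ((p ^ 2 + q ^ 2) / 2 + p * q * s)) +
          m * -((p + q) * s + (p + q) / 2 * s ^ 2) + -s) := by ring
    rw [this]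
    exact neg_neg_of_pos e1
  · rw [hW]
    push_cast
    have : ((p : ℝ) * m + q * m + 1) * t + (p * m * (p * m + 1) + q * m * (q * m + 1)) / 2 * t ^ 2 +
        p * m * (q * m) * t ^ 3 = (m : ℝ) ^ 2 * (t ^ 2 * ((p ^ 2 + q ^ 2) / 2 + p * q * t)) +
          m * ((p + q) * t + (p + q) / 2 * t ^ 2) + t := by ring
    rw [this]
    exact e2

/-- the main term and the error term for the broom -/
theorem broom_bound {x : ℝ} (h1 : -1 < x) (h0 : x < 0) (L q : ℕ) (hL : 1 ≤ L) :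
    |((L : ℝ) * x + (L : ℝ) * (L - 1) / 2 * x ^ 2 + x * (q / (1 - x) +
      (1 + L * x - 1 / (1 - x)) * ((1 - x ^ q) / (1 - x)))) -
      ((L : ℝ) ^ 2 * (x ^ 2 / 2) + q * (x / (1 - x)))| ≤ 10 * (L : ℝ) := by
  have hL' : (1 : ℝ) ≤ L := by exact_mod_cast hL
  have hx1 : 1 < 1 - x := by linarith
  have e : ((L : ℝ) * x + (L : ℝ) * (L - 1) / 2 * x ^ 2 + x * (q / (1 - x) +
      (1 + L * x - 1 / (1 - x)) * ((1 - x ^ q) / (1 - x)))) -
      ((L : ℝ) ^ 2 * (x ^ 2 / 2) + q * (x / (1 - x))) =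
      L * x - L * (x ^ 2 / 2) + x * ((1 + L * x - 1 / (1 - x)) * ((1 - x ^ q) / (1 - x))) := by
    ring
  rw [e]
  have hxa : |x| ≤ 1 := by rw [abs_le]; constructor <;> linarith
  have b1 : |(L : ℝ) * x| ≤ (L : ℝ) := by
    rw [abs_mul, abs_of_nonneg (by linarith : (0 : ℝ) ≤ L)]
    nlinarith
  have b2 : |(L : ℝ) * (x ^ 2 / 2)| ≤ (L : ℝ) := by
    rw [abs_of_nonneg (by positivity)]
    have h2 : x ^ 2 / 2 ≤ 1 := by nlinarith
    calc (L : ℝ) * (x ^ 2 / 2) ≤ L * 1 := mul_le_mul_of_nonneg_left h2 (by linarith)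
      _ = L := mul_one _
  have b3 : |(1 - x ^ q) / (1 - x)| ≤ 2 := by
    rw [abs_div, abs_of_pos (by linarith : (0 : ℝ) < 1 - x), div_le_iff₀ (by linarith)]
    have : |x ^ q| ≤ 1 := by rw [abs_pow]; exact pow_le_one₀ (abs_nonneg _) hxa
    have := abs_sub (1 : ℝ) (x ^ q)
    rw [abs_one] at this
    nlinarith
  have b4 : |1 + (L : ℝ) * x - 1 / (1 - x)| ≤ 1 + L + 1 := by
    have h2 : |1 / (1 - x)| ≤ 1 := by
      rw [abs_of_pos (by positivity), div_le_one (by linarith)]; linarith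
    have h3 := abs_sub (1 + (L : ℝ) * x) (1 / (1 - x))
    have h4 := abs_add_le (1 : ℝ) ((L : ℝ) * x)
    rw [abs_one] at h4
    linarith
  have b5 : |x * ((1 + (L : ℝ) * x - 1 / (1 - x)) * ((1 - x ^ q) / (1 - x)))| ≤
      1 * ((1 + L + 1) * 2) := by
    rw [abs_mul, abs_mul]
    gcongr
  calc |(L : ℝ) * x - L * (x ^ 2 / 2) + x * ((1 + L * x - 1 / (1 - x)) * ((1 - x ^ q) / (1 - x)))|
      ≤ |(L : ℝ) * x - L * (x ^ 2 / 2)| +
        |x * ((1 + L * x - 1 / (1 - x)) * ((1 - x ^ q) / (1 - x)))| := abs_add_le _ _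
    _ ≤ |(L : ℝ) * x| + |(L : ℝ) * (x ^ 2 / 2)| + 1 * ((1 + L + 1) * 2) := by
        have := abs_sub ((L : ℝ) * x) (L * (x ^ 2 / 2))
        linarith
    _ ≤ 10 * L := by linarith

/-- roots between `-1` and `0` -/
theorem right_roots {s t : ℝ} (hst : s < t) (hs : -1 < s) (ht : t < 0) :
    ∃ r ∈ realWienerRoots, s < r ∧ r < t := by
  have h1 : -(t * (1 - t) / 2) < -(s * (1 - s) / 2) := by nlinarith
  obtain ⟨r, hr1, hr2⟩ := exists_rat_btwn h1
  have hr0 : (0 : ℝ) < r := by nlinarith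
  have hrpos : (0 : ℚ) < r := by exact_mod_cast hr0
  obtain ⟨p, hp⟩ : ∃ p : ℕ, p = r.num.toNat := ⟨_, rfl⟩
  obtain ⟨q, hq⟩ : ∃ q : ℕ, q = r.den := ⟨_, rfl⟩
  have hq0' : 0 < q := by rw [hq]; exact r.den_pos
  have hq0 : (0 : ℝ) < q := by exact_mod_cast hq0'
  have hp' : (p : ℝ) = r * q := by
    have h2 : ((r.num.toNat : ℤ) : ℚ) = r * r.den := by
      rw [Int.toNat_of_nonneg (Rat.num_nonneg.2 hrpos.le)]
      exact (Rat.mul_den_eq_num r).symm
    have h3 : (((r.num.toNat : ℤ) : ℚ) : ℝ) = ((r * r.den : ℚ) : ℝ) := by rw [h2]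
    push_cast at h3
    rw [hp, hq]
    exact h3
  have hp0' : 0 < p := by
    have : (0 : ℝ) < p := by rw [hp']; positivity
    exact_mod_cast this
  -- the leading coefficient
  have hlead : ∀ x : ℝ, x < 1 → (q : ℝ) ^ 2 * (x ^ 2 / 2) + p * q * (x / (1 - x)) =
      q ^ 2 * (x / (1 - x)) * (x * (1 - x) / 2 + r) := by
    intro x hx
    have : 1 - x ≠ 0 := by linarith
    rw [hp']
    field_simp
  have hA : 0 < (q : ℝ) ^ 2 * (s ^ 2 / 2) + p * q * (s / (1 - s)) := by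
    rw [hlead s (by linarith)]
    have h2 : s / (1 - s) < 0 := div_neg_of_neg_of_pos (by linarith) (by linarith)
    have h3 : s * (1 - s) / 2 + r < 0 := by linarith
    have h4 : (q : ℝ) ^ 2 * (s / (1 - s)) < 0 := mul_neg_of_pos_of_neg (by positivity) h2
    exact mul_pos_of_neg_of_neg h4 h3
  have hB : 0 < -((q : ℝ) ^ 2 * (t ^ 2 / 2) + p * q * (t / (1 - t))) := by
    rw [hlead t (by linarith)]
    have h2 : t / (1 - t) < 0 := div_neg_of_neg_of_pos (by linarith) (by linarith)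
    have h3 : 0 < t * (1 - t) / 2 + r := by linarith
    have h4 : (q : ℝ) ^ 2 * (t / (1 - t)) < 0 := mul_neg_of_pos_of_neg (by positivity) h2
    have := mul_neg_of_neg_of_pos h4 h3
    linarith
  have hs' := quad_pos hA (-(10 * q)) 0
  have ht' := quad_pos hB (-(10 * q)) 0
  obtain ⟨m, hm⟩ := exists_nat_gt (max
    ((|-(10 * (q : ℝ))| + |(0 : ℝ)|) / ((q : ℝ) ^ 2 * (s ^ 2 / 2) + p * q * (s / (1 - s))) + 1)
    ((|-(10 * (q : ℝ))| + |(0 : ℝ)|) / -((q : ℝ) ^ 2 * (t ^ 2 / 2) + p * q * (t / (1 - t))) + 1))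
  have e1 := hs' m (lt_of_le_of_lt (le_max_left _ _) hm)
  have e2 := ht' m (lt_of_le_of_lt (le_max_right _ _) hm)
  have hm0 : 0 < m := by
    have h2 : (0 : ℝ) < m := by
      refine lt_of_le_of_lt ?_ (lt_of_le_of_lt (le_max_left _ _) hm)
      positivity
    exact_mod_cast h2
  obtain ⟨n, G, hn, hG, hW⟩ := broom (q * m) (p * q * m ^ 2)
    (Nat.succ_le_of_lt (by positivity))
  have hqm : 1 ≤ q * m := Nat.succ_le_of_lt (by positivity)
  refine root_of_sign hst n G hn hG ?_ ?_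
  · rw [hW s (by linarith)]
    have hb := broom_bound hs (by linarith) (q * m) (p * q * m ^ 2) hqm
    have hb' := (abs_le.1 hb).1
    push_cast at hb' ⊢
    have e3 : ((q : ℝ) * m) ^ 2 * (s ^ 2 / 2) + p * q * m ^ 2 * (s / (1 - s)) =
        m ^ 2 * (q ^ 2 * (s ^ 2 / 2) + p * q * (s / (1 - s))) := by ring
    rw [e3] at hb'
    have e4 : 10 * ((q : ℝ) * m) = -(m * -(10 * q)) := by ring
    rw [e4] at hb'
    linarith
  · rw [hW t (by linarith)]
    have hb := broom_bound (by linarith) ht (q * m) (p * q * m ^ 2) hqm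
    have hb' := (abs_le.1 hb).2
    push_cast at hb' ⊢
    have e3 : ((q : ℝ) * m) ^ 2 * (t ^ 2 / 2) + p * q * m ^ 2 * (t / (1 - t)) =
        m ^ 2 * (q ^ 2 * (t ^ 2 / 2) + p * q * (t / (1 - t))) := by ring
    rw [e3] at hb'
    have e4 : 10 * ((q : ℝ) * m) = -(m * -(10 * q)) := by ring
    rw [e4] at hb'
    linarith

theorem W_pos (G : SimpleGraph (Fin n)) (hn : 2 ≤ n) {x : ℝ} (hx : 0 < x) : 0 < W G x := by
  unfold W
  have h0 : ∀ i j : Fin n, 0 ≤ (if i < j then x ^ G.dist i j else 0) := by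
    intro i j
    split_ifs
    · positivity
    · exact le_rfl
  refine sum_pos' (fun i _ => sum_nonneg fun j _ => h0 i j) ⟨⟨0, by omega⟩, mem_univ _, ?_⟩
  refine sum_pos' (fun j _ => h0 _ j) ⟨⟨1, by omega⟩, mem_univ _, ?_⟩
  rw [if_pos (by rw [Fin.lt_def]; norm_num)]
  positivity

theorem roots_subset : realWienerRoots ⊆ Set.Iic 0 := by
  rintro r ⟨n, G, hn, -, hr⟩
  rw [Set.mem_Iic]
  by_contra h
  rw [Polynomial.IsRoot, eval_wiener] at hr
  exact absurd hr (W_pos G hn (not_le.1 h)).ne'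

theorem main : closure realWienerRoots = Set.Iic 0 := by
  apply subset_antisymm
  · exact closure_minimal roots_subset isClosed_Iic
  · intro x hx
    rw [Set.mem_Iic] at hx
    rw [Metric.mem_closure_iff]
    intro ε hε
    rcases le_or_gt x (-1) with h | h
    · obtain ⟨r, hr, h1, h2⟩ := left_roots (s := x - ε) (t := x - ε / 2) (by linarith) (by linarith)
      refine ⟨r, hr, ?_⟩
      rw [Real.dist_eq, abs_lt]
      constructor <;> linarith
    · have h3 : max (-1) (x - ε) < x := max_lt h (by linarith)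
      obtain ⟨r, hr, h1, h2⟩ := right_roots
        (s := (2 * max (-1) (x - ε) + x) / 3) (t := (max (-1) (x - ε) + 2 * x) / 3)
        (by linarith) (by have := le_max_left (-1) (x - ε); linarith) (by linarith)
      refine ⟨r, hr, ?_⟩
      rw [Real.dist_eq, abs_lt]
      have := le_max_right (-1) (x - ε)
      constructor <;> linarith

end Pool.Agent.N343.WR
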